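import Mathlib
import Pool.Agent.Lib.H84.RCDDefs
import Pool.Agent.Lib.H84.CDHemi
import Pool.Agent.Lib.H84.T1Cheeger
import Pool.Agent.Lib.H84.T2Hausdorff
import Pool.Agent.Lib.H84.T3Boundary

/-!
# A noncollapsed `RCD(N-1,N)` space with nonempty boundary and radius larger than `π/2`

The example is `N = 4` and `X = S²(1/√3) × S²₊(1/√3)`, the `L²` product of a round two-sphere of
radius `1/√3` and a closed round hemisphere of radius `1/√3`. Every point `(a, b)` is at distance
`π/√3 > π/2` from `(-a, b)`.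
-/

open MeasureTheory Set Filter Topology Metric InnerProductGeometry
open scoped ENNReal NNReal Real RealInnerProductSpace

namespace Pool.Agent.Results.MP_4a2bad_gt.HemisphereProduct

open Pool.Agent.Lib.H84.RCD

/-- the point `(-a, b)` for `p = (a, b)` -/
def antip (p : Hemi) : Hemi :=
  ⟨⟨-p.1.fst, p.1.snd, by rw [norm_neg]; exact p.1.norm_fst, p.1.norm_snd⟩, p.2⟩

lemma dist_antip (p : Hemi) : dist p (antip p) = √(π ^ 2 / 3) := by
  rw [Subtype.dist_eq, SS.dist_def]
  have h1 : angle p.1.fst (antip p).1.fst = π := by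
    change angle p.1.fst (-p.1.fst) = π
    rw [angle_neg_right, SS.angle_self_unit p.1.norm_fst, sub_zero]
  have h2 : angle p.1.snd (antip p).1.snd = 0 := SS.angle_self_unit p.1.norm_snd
  rw [h1, h2]
  congr 1
  ring

lemma half_pi_lt : π / 2 < √(π ^ 2 / 3) := by
  apply Real.lt_sqrt_of_sq_lt
  have := Real.pi_pos
  nlinarith [sq_pos_of_pos Real.pi_pos]

lemma radius_Hemi : ENNReal.ofReal (π / 2) < radius Hemi := by
  have h1 : ENNReal.ofReal (√(π ^ 2 / 3)) ≤ radius Hemi := by
    unfold radius
    refine le_iInf (fun p => ?_)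
    refine le_trans (le_of_eq ?_) (le_iSup (fun x => edist p x) (antip p))
    rw [edist_dist, dist_antip]
  refine lt_of_lt_of_le ?_ h1
  have hpos : 0 < √(π ^ 2 / 3) := lt_trans (by have := Real.pi_pos; positivity) half_pi_lt
  exact (ENNReal.ofReal_lt_ofReal_iff hpos).2 half_pi_lt

lemma isRCD_Hemi : IsRCD 3 4 (μH[(4 : ℝ)] : Measure Hemi) where
  complete := inferInstance
  separable := inferInstance
  nonempty := boundary_Hemi_nonempty.to_type
  geodesic := isGeodesicSpace_Hemi
  finite_ball x r := (measure_mono (subset_univ _)).trans_lt hausdorff_Hemi_finite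
  full_support x r hr := hausdorff_Hemi_ball_pos x r hr
  curvature_dimension := cd_Hemi
  hilbertian := T1.hilbertian_Hemi_of hausdorff_Hemi

/-- There are an integer `N ≥ 2` and a (compact) noncollapsed `RCD(N-1,N)` space with nonempty
boundary and radius larger than `π/2`. -/
theorem result : ∃ (N : ℕ) (X : Type) (_ : MetricSpace X) (_ : MeasurableSpace X)
    (_ : BorelSpace X), 2 ≤ N ∧ CompactSpace X ∧ IsNoncollapsedRCD ((N : ℝ) - 1) N X ∧
      (boundary N X).Nonempty ∧ ENNReal.ofReal (π / 2) < radius X := by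
  refine ⟨4, Hemi, inferInstance, inferInstance, inferInstance, by norm_num, inferInstance, ?_,
    boundary_Hemi_nonempty, radius_Hemi⟩
  have h : IsNoncollapsedRCD 3 4 Hemi := by
    unfold IsNoncollapsedRCD
    have e : ((4 : ℕ) : ℝ) = 4 := by norm_num
    rw [e]
    exact isRCD_Hemi
  have e : ((4 : ℕ) : ℝ) - 1 = 3 := by norm_num
  rw [e]
  exact h

end Pool.Agent.Results.MP_4a2bad_gt.HemisphereProduct
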